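import Mathlib

/-!
Condition (C) suffices for secret sum computation with Gaussian sources, by a linear scheme.
-/

set_option autoImplicit false

namespace Pool.Agent.Results.MP_121ed1_lc.LinearSecretSum

open MeasureTheory ProbabilityTheory Relation

open scoped Classical

/-- A network: a weakly connected acyclic directed graph with vertices `V` and edges `E`, at least
one edge and exactly one vertex `d` of out-degree zero. -/
structure Network (V : Type) where
  E : V → V → Prop
  acyclic : ∀ v, ¬ TransGen E v v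
  connected : ∀ u v, ReflTransGen (fun a b => E a b ∨ E b a) u v
  nonempty : ∃ u v, E u v
  d : V
  sink : ∀ v, (∀ w, ¬ E v w) ↔ v = d

/-- The sources are the vertices of in-degree zero. -/
def Network.Source {V : Type} (G : Network V) (v : V) : Prop := ∀ u, ¬ G.E u v

theorem Network.wf {V : Type} [Finite V] (G : Network V) : WellFounded G.E := by
  have h1 : WellFounded (TransGen G.E) := by
    have : IsTrans V (TransGen G.E) := ⟨fun _ _ _ h1 h2 => h1.trans h2⟩
    have : Std.Irrefl (TransGen G.E) := ⟨G.acyclic⟩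
    exact Finite.wellFounded_of_trans_of_irrefl _
  exact Subrelation.wf (fun h => TransGen.single h) h1

/-- The signals of the scheme with the linear encoding functions `f` for the source values `x`:
the vertex `v` sends `f v w (y, z)` along its edge to `w`, where `y u` is the signal received from
`u` (zero if there is no edge from `u` to `v`), and `z` is `x v` if `v` is a source, and zero if
not. -/
noncomputable def Network.signal {V : Type} [Finite V] (G : Network V) {k : ℕ}
    (f : V → V → ((V → Fin k → ℝ) × ℝ) →ₗ[ℝ] (Fin k → ℝ)) (x : V → ℝ) : V → V → Fin k → ℝ :=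
  G.wf.fix fun v rec w =>
    f v w (fun u => if h : G.E u v then rec u h v else 0, if G.Source v then x v else 0)

/-- The secrecy closure of the set of edges `W`. -/
def Network.scl {V : Type} (G : Network V) (W : V → V → Prop) (u v : V) : Prop :=
  G.E u v ∧ (W u v ∨ ¬ ∃ s, G.Source s ∧ ReflTransGen (fun a b => G.E a b ∧ ¬ W a b) s u)

/-- Condition (C): every source is connected with the destination by an undirected path of edges
outside of the secrecy closure. -/
def Network.CondC {V : Type} (G : Network V) (W : V → V → Prop) : Prop :=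
  ∀ s, G.Source s → ReflTransGen
    (fun a b => (G.E a b ∧ ¬ G.scl W a b) ∨ (G.E b a ∧ ¬ G.scl W b a)) s G.d

section

variable {V : Type} [Fintype V] (G : Network V) (W : V → V → Prop)

theorem signal_eq {k : ℕ} (f : V → V → ((V → Fin k → ℝ) × ℝ) →ₗ[ℝ] (Fin k → ℝ)) (x : V → ℝ)
    (v w : V) : G.signal f x v w =
      f v w (fun u => if G.E u v then G.signal f x u v else 0, if G.Source v then x v else 0) := by
  unfold Network.signal
  conv_lhs => rw [WellFounded.fix_eq]
  congr 2

/-- sources known at `u` -/
def R (u : V) : Set V := {s | G.Source s ∧ ReflTransGen (fun a b => G.E a b ∧ ¬ W a b) s u}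

/-- differences known at `u` -/
def D (u : V) : Set (V × V) := {p | ∃ y, ReflTransGen G.E y u ∧ p.1 ∈ R G W y ∧ p.2 ∈ R G W y}

/-- the coordinates of the signals -/
noncomputable def enc : V ⊕ (V × V) ≃ Fin (Fintype.card (V ⊕ (V × V))) := Fintype.equivFin _

/-- explicit signals -/
noncomputable def S (x : V → ℝ) (u v : V) (j : Fin (Fintype.card (V ⊕ (V × V)))) : ℝ :=
  match enc.symm j with
  | Sum.inl s => if ¬ W u v ∧ s ∈ R G W u then x s else 0
  | Sum.inr p => if p ∈ D G W u then x p.1 - x p.2 else 0

theorem S_inl (x : V → ℝ) (u v s : V) :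
    S G W x u v (enc (Sum.inl s)) = if ¬ W u v ∧ s ∈ R G W u then x s else 0 := by
  simp [S]

theorem S_inr (x : V → ℝ) (u v : V) (p : V × V) :
    S G W x u v (enc (Sum.inr p)) = if p ∈ D G W u then x p.1 - x p.2 else 0 := by
  simp [S]

/-- what `u` receives -/
noncomputable def inp (x : V → ℝ) (u : V) :
    (V → Fin (Fintype.card (V ⊕ (V × V))) → ℝ) × ℝ :=
  (fun p => if G.E p u then S G W x p u else 0, if G.Source u then x u else 0)

/-- `h` is a linear function of what `u` receives -/
def Cp (u : V) (h : (V → ℝ) → ℝ) : Prop :=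
  ∃ φ : ((V → Fin (Fintype.card (V ⊕ (V × V))) → ℝ) × ℝ) →ₗ[ℝ] ℝ, ∀ x, φ (inp G W x u) = h x

variable {G W}

theorem Cp.zero {u : V} : Cp G W u (fun _ => 0) := ⟨0, fun _ => rfl⟩

theorem Cp.add {u : V} {h1 h2 : (V → ℝ) → ℝ} (a : Cp G W u h1) (b : Cp G W u h2) :
    Cp G W u (fun x => h1 x + h2 x) := by
  obtain ⟨φ, hφ⟩ := a
  obtain ⟨ψ, hψ⟩ := b
  exact ⟨φ + ψ, fun x => by rw [LinearMap.add_apply, hφ, hψ]⟩

theorem Cp.sub {u : V} {h1 h2 : (V → ℝ) → ℝ} (a : Cp G W u h1) (b : Cp G W u h2) :
    Cp G W u (fun x => h1 x - h2 x) := by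
  obtain ⟨φ, hφ⟩ := a
  obtain ⟨ψ, hψ⟩ := b
  exact ⟨φ - ψ, fun x => by rw [LinearMap.sub_apply, hφ, hψ]⟩

theorem Cp.sum {u : V} {ι : Type} (T : Finset ι) {h : ι → (V → ℝ) → ℝ}
    (a : ∀ i ∈ T, Cp G W u (h i)) : Cp G W u (fun x => ∑ i ∈ T, h i x) := by
  induction T using Finset.induction_on with
  | empty => simpa using Cp.zero
  | insert i T hi ih =>
    simp only [Finset.sum_insert hi]
    exact (a i (Finset.mem_insert_self _ _)).add
      (ih fun j hj => a j (Finset.mem_insert_of_mem hj))

theorem Cp.of_edge {p u : V} (h : G.E p u) (j : Fin (Fintype.card (V ⊕ (V × V)))) :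
    Cp G W u (fun x => S G W x p u j) := by
  refine ⟨(LinearMap.proj j ∘ₗ LinearMap.proj p) ∘ₗ LinearMap.fst ℝ _ _, fun x => ?_⟩
  simp [inp, h]

theorem Cp.own {u : V} (h : G.Source u) : Cp G W u (fun x => x u) := by
  refine ⟨LinearMap.snd ℝ _ _, fun x => ?_⟩
  simp [inp, h]

theorem Cp.of_R {u s : V} (h : s ∈ R G W u) : Cp G W u (fun x => x s) := by
  obtain ⟨hs, hp⟩ := h
  rcases hp.cases_tail with h1 | ⟨p, hp1, hp2⟩
  · subst h1
    exact Cp.own hs
  · have h2 := Cp.of_edge (W := W) hp2.1 (enc (Sum.inl s))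
    have h3 : ∀ x : V → ℝ, S G W x p u (enc (Sum.inl s)) = x s := fun x => by
      rw [S_inl, if_pos ⟨hp2.2, hs, hp1⟩]
    simpa only [h3] using h2

theorem Cp.of_D {u : V} {p : V × V} (h : p ∈ D G W u) : Cp G W u (fun x => x p.1 - x p.2) := by
  obtain ⟨y, hy, h1, h2⟩ := h
  rcases hy.cases_tail with h3 | ⟨q, hq1, hq2⟩
  · subst h3
    exact (Cp.of_R h1).sub (Cp.of_R h2)
  · have h4 := Cp.of_edge (W := W) hq2 (enc (Sum.inr p))
    have h5 : ∀ x : V → ℝ, S G W x q u (enc (Sum.inr p)) = x p.1 - x p.2 := fun x => by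
      rw [S_inr, if_pos ⟨y, hq1, h1, h2⟩]
    simpa only [h5] using h4

theorem Cp.signal (u v : V) (j : Fin (Fintype.card (V ⊕ (V × V)))) :
    Cp G W u (fun x => S G W x u v j) := by
  obtain ⟨i, rfl⟩ := enc.surjective j
  rcases i with s | p
  · by_cases h : ¬ W u v ∧ s ∈ R G W u
    · have h3 : ∀ x : V → ℝ, S G W x u v (enc (Sum.inl s)) = x s := fun x => by
        rw [S_inl, if_pos h]
      simpa only [h3] using Cp.of_R h.2
    · have h3 : ∀ x : V → ℝ, S G W x u v (enc (Sum.inl s)) = 0 := fun x => by
        rw [S_inl, if_neg h]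
      simpa only [h3] using Cp.zero
  · by_cases h : p ∈ D G W u
    · have h3 : ∀ x : V → ℝ, S G W x u v (enc (Sum.inr p)) = x p.1 - x p.2 := fun x => by
        rw [S_inr, if_pos h]
      simpa only [h3] using Cp.of_D h
    · have h3 : ∀ x : V → ℝ, S G W x u v (enc (Sum.inr p)) = 0 := fun x => by
        rw [S_inr, if_neg h]
      simpa only [h3] using Cp.zero

variable (G W)

theorem exists_enc : ∃ f : V → V → ((V → Fin (Fintype.card (V ⊕ (V × V))) → ℝ) × ℝ) →ₗ[ℝ]
    (Fin (Fintype.card (V ⊕ (V × V))) → ℝ), ∀ u v x, f u v (inp G W x u) = S G W x u v := by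
  have h := fun u v j => Cp.signal (G := G) (W := W) u v j
  choose φ hφ using h
  refine ⟨fun u v => LinearMap.pi (φ u v), fun u v x => ?_⟩
  funext j
  rw [LinearMap.pi_apply]
  exact hφ u v j x

theorem signal_S (f : V → V → ((V → Fin (Fintype.card (V ⊕ (V × V))) → ℝ) × ℝ) →ₗ[ℝ]
    (Fin (Fintype.card (V ⊕ (V × V))) → ℝ)) (hf : ∀ u v x, f u v (inp G W x u) = S G W x u v)
    (x : V → ℝ) (u : V) : ∀ v, G.signal f x u v = S G W x u v := by
  induction u using G.wf.induction with
  | _ u ih =>
    intro v
    rw [signal_eq, ← hf u v x]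
    congr 2
    funext p
    by_cases h : G.E p u
    · simp only [if_pos h]
      exact ih p h u
    · simp only [if_neg h]

theorem to_d (u : V) : ReflTransGen G.E u G.d := by
  have h1 : WellFounded (TransGen (Function.swap G.E)) := by
    have : IsTrans V (TransGen (Function.swap G.E)) := ⟨fun _ _ _ h1 h2 => h1.trans h2⟩
    have : Std.Irrefl (TransGen (Function.swap G.E)) := ⟨fun v hv => by
      rw [transGen_swap] at hv
      exact G.acyclic v hv⟩
    exact Finite.wellFounded_of_trans_of_irrefl _
  have h2 : WellFounded (Function.swap G.E) := Subrelation.wf (fun h => TransGen.single h) h1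
  induction u using h2.induction with
  | _ u ih =>
    by_cases hu : u = G.d
    · rw [hu]
    · have h3 : ¬ ∀ w, ¬ G.E u w := fun h => hu ((G.sink u).1 h)
      push Not at h3
      obtain ⟨w, hw⟩ := h3
      exact ReflTransGen.head hw (ih w hw)

theorem chain {s : V} (hs : G.Source s) {y : V} (h : ReflTransGen
    (fun a b => (G.E a b ∧ ¬ G.scl W a b) ∨ (G.E b a ∧ ¬ G.scl W b a)) s y) :
    ∃ t ∈ R G W y, Cp G W G.d (fun x => x s - x t) := by
  induction h with
  | refl => exact ⟨s, ⟨hs, ReflTransGen.refl⟩, by simpa using Cp.zero⟩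
  | @tail y z _ hyz ih =>
    obtain ⟨t, ht, hst⟩ := ih
    rcases hyz with ⟨h1, h2⟩ | ⟨h1, h2⟩
    · unfold Network.scl at h2
      push Not at h2
      obtain ⟨h3, -⟩ := h2 h1
      exact ⟨t, ⟨ht.1, ht.2.tail ⟨h1, h3⟩⟩, hst⟩
    · unfold Network.scl at h2
      push Not at h2
      obtain ⟨h3, t', ht'1, ht'2⟩ := h2 h1
      refine ⟨t', ⟨ht'1, ht'2⟩, ?_⟩
      have h4 : (t, t') ∈ D G W G.d := ⟨y, to_d G y, ht, ht'1, ht'2.tail ⟨h1, h3⟩⟩
      have h5 := hst.add (Cp.of_D h4)
      refine (show (fun x : V → ℝ => x s - x t') = fun x => x s - x t + (x t - x t') from ?_) ▸ h5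
      funext x
      ring

theorem source_at_d (hC : G.CondC W) {s : V} (hs : G.Source s) : Cp G W G.d (fun x => x s) := by
  obtain ⟨t, ht, h1⟩ := chain G W hs (hC s hs)
  have h2 := h1.add (Cp.of_R ht)
  refine (show (fun x : V → ℝ => x s) = fun x => x s - x t + x t from ?_) ▸ h2
  funext x
  ring

theorem d_not_source : ¬ G.Source G.d := by
  intro h
  obtain ⟨u, v, huv⟩ := G.nonempty
  rcases (to_d G u).cases_tail with h1 | ⟨p, -, hp⟩
  · exact (G.sink u).2 h1.symm v huv
  · exact h p hp

theorem indep {Ω : Type} [MeasurableSpace Ω] (P : Measure Ω) (X : V → Ω → ℝ)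
    (hX : ∀ s, G.Source s → HasLaw (X s) (gaussianReal 0 1) P)
    (hI : iIndepFun (fun s : {s // G.Source s} => X s) P) :
    IndepFun (fun ω (p : {s // G.Source s} × {s // G.Source s}) => X p.1 ω - X p.2 ω)
      (fun ω (_ : Unit) => ∑ s : {s // G.Source s}, X s ω) P := by
  have hg : ∀ s : {s // G.Source s}, HasGaussianLaw (X s) P := fun s =>
    (hX s.1 s.2).hasGaussianLaw
  have hJ : HasGaussianLaw (fun ω (s : {s // G.Source s}) => X s ω) P := hI.hasGaussianLaw hg
  have := hJ.isProbabilityMeasure
  have hL2 : ∀ s : {s // G.Source s}, MemLp (X s) 2 P := fun s => (hg s).memLp_two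
  have hvar : ∀ s : {s // G.Source s}, Var[X s; P] = 1 := fun s => by
    rw [(hX s.1 s.2).variance_eq, variance_id_gaussianReal]
    simp
  have hcov : ∀ s t : {s // G.Source s}, cov[X s, X t; P] = if s = t then 1 else 0 := by
    intro s t
    split_ifs with h
    · rw [h, covariance_self (hL2 t).aemeasurable, hvar]
    · exact (hI.indepFun h).covariance_eq_zero (hL2 s) (hL2 t)
  refine HasGaussianLaw.indepFun_of_covariance_eval ?_ ?_
  · let L1 : ({s // G.Source s} → ℝ) →ₗ[ℝ] (({s // G.Source s} × {s // G.Source s} → ℝ) ×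
        (Unit → ℝ)) :=
      { toFun := fun z => (fun p => z p.1 - z p.2, fun _ => ∑ s, z s)
        map_add' := fun z z' => by
          refine Prod.ext ?_ ?_
          · funext p
            simp only [Pi.add_apply, Prod.fst_add]
            ring
          · funext _
            simp only [Pi.add_apply, Prod.snd_add]
            exact Finset.sum_add_distrib
        map_smul' := fun c z => by
          refine Prod.ext ?_ ?_
          · funext p
            simp only [Pi.smul_apply, Prod.smul_fst, smul_eq_mul, RingHom.id_apply]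
            ring
          · funext _
            simp only [Pi.smul_apply, Prod.smul_snd, smul_eq_mul, RingHom.id_apply]
            exact (Finset.mul_sum _ _ _).symm }
    exact hJ.map_fun (LinearMap.toContinuousLinearMap L1)
  · intro p _
    rw [covariance_fun_sub_left (hL2 _) (hL2 _) (memLp_finsetSum _ fun s _ => hL2 s)]
    rw [covariance_fun_sum_right (fun s => hL2 s) (hL2 _),
      covariance_fun_sum_right (fun s => hL2 s) (hL2 _)]
    simp [hcov]

end

/-- For every network and every set `W` of wiretapped edges satisfying condition (C) there are a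
dimension `k`, linear encoding functions `f` (with signals in `ℝ ^ k`) and a linear decoding
function `g` of the signals received by the destination, such that for independent standard
Gaussian source variables `X s`: the destination outputs the sum of the source variables, and the
family of the signals on the edges of `W` is independent of this sum. -/
theorem result (V : Type) [Fintype V] (G : Network V) (W : V → V → Prop)
    (_hW : ∀ u v, W u v → G.E u v) (hC : G.CondC W) :
    ∃ (k : ℕ) (f : V → V → ((V → Fin k → ℝ) × ℝ) →ₗ[ℝ] (Fin k → ℝ))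
      (g : (V → Fin k → ℝ) →ₗ[ℝ] ℝ),
      ∀ (Ω : Type) [MeasurableSpace Ω] (P : Measure Ω) (X : V → Ω → ℝ),
        (∀ s, G.Source s → HasLaw (X s) (gaussianReal 0 1) P) →
        iIndepFun (fun s : {s // G.Source s} => X s) P →
        (∀ ω, g (fun u => if G.E u G.d then G.signal f (fun v => X v ω) u G.d else 0) =
          ∑ s : {s // G.Source s}, X s ω) ∧
        IndepFun (fun ω (e : {e : V × V // W e.1 e.2}) =>
            G.signal f (fun v => X v ω) e.1.1 e.1.2)
          (fun ω => ∑ s : {s // G.Source s}, X s ω) P := by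
  obtain ⟨f, hf⟩ := exists_enc G W
  have h1 : Cp G W G.d (fun x => ∑ s : {s // G.Source s}, x s) :=
    Cp.sum Finset.univ fun s _ => source_at_d G W hC s.2
  obtain ⟨φ, hφ⟩ := h1
  refine ⟨_, f, φ ∘ₗ LinearMap.inl ℝ _ _, ?_⟩
  intro Ω _ P X hX hI
  constructor
  · intro ω
    refine Eq.trans ?_ (hφ fun v => X v ω)
    rw [LinearMap.comp_apply]
    congr 1
    unfold inp
    rw [if_neg (d_not_source G), LinearMap.inl_apply]
    congr 2
    funext u
    by_cases h : G.E u G.d
    · simp only [if_pos h]
      exact signal_S G W f hf _ u G.d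
    · simp only [if_neg h]
  · have h2 := indep G P X hX hI
    let Φ : ({s // G.Source s} × {s // G.Source s} → ℝ) → {e : V × V // W e.1 e.2} →
        Fin (Fintype.card (V ⊕ (V × V))) → ℝ := fun z e j =>
      match enc.symm j with
      | Sum.inl _ => 0
      | Sum.inr p => if h : p ∈ D G W e.1.1 then
          z (⟨p.1, h.choose_spec.2.1.1⟩, ⟨p.2, h.choose_spec.2.2.1⟩) else 0
    have hΦ : Measurable Φ := by
      refine measurable_pi_iff.2 fun e => measurable_pi_iff.2 fun j => ?_
      obtain ⟨i, rfl⟩ := enc.surjective j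
      simp only [Φ, Equiv.symm_apply_apply]
      rcases i with s | p
      · exact measurable_const
      · by_cases h : p ∈ D G W e.1.1
        · simp only [dif_pos h]
          exact measurable_pi_apply _
        · simp only [dif_neg h]
          exact measurable_const
    have h3 := h2.comp hΦ (measurable_pi_apply ())
    have h4 : (fun ω (e : {e : V × V // W e.1 e.2}) =>
        G.signal f (fun v => X v ω) e.1.1 e.1.2) =
        Φ ∘ (fun ω (p : {s // G.Source s} × {s // G.Source s}) => X p.1 ω - X p.2 ω) := by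
      funext ω e j
      obtain ⟨i, rfl⟩ := enc.surjective j
      rw [signal_S G W f hf]
      simp only [Φ, Function.comp_apply, Equiv.symm_apply_apply]
      rcases i with s | p
      · rw [S_inl, if_neg fun h => h.1 e.2]
      · rw [S_inr]
        by_cases h : p ∈ D G W e.1.1
        · rw [if_pos h]
          simp only [dif_pos h]
        · rw [if_neg h]
          simp only [dif_neg h]
    rw [h4]
    exact h3

end Pool.Agent.Results.MP_121ed1_lc.LinearSecretSum
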